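import Mathlib
import Pool.Agent.W5h34.CB.Win

set_option autoImplicit false

/-!
# Chowla sums of every order: a uniform saving in all windows of bounded logarithmic length

There are `c_s > 0` such that for all `α`, `ε` as in the problem, with exactly `s` exponents equal to one, and
for all residue classes `a` modulo `q` (the same `c_s` for all of them):

(1) the set `𝓔` of the `N` with `|∑ P(n)| > (1 - c_s) ∑ |P(n)|` (sums over `n ≤ N`, `n ≡ a mod q`) has upper Banach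
logarithmic density zero: for every `δ > 0` there are `ω` and `Y₀` such that in every window `(Y, W]` with
`Y ≥ Y₀` and `W ≥ ω Y` its logarithmic proportion is at most `δ`;

(2) for some `ω` every window `(Y, ω Y]`, `Y` large, contains an `N` which is not in `𝓔`;

(3) for some `ω` the logarithmic sums over every window `(Y, W]` with `W ≥ ω Y` and `Y` large satisfy
`|∑ P(n) / n| ≤ (1 - c_s) ∑ |P(n)| / n`.
-/

namespace Pool.Agent.Results.MP_c59857_nt.BoundedWindows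

open Finset

/-- `P(n) = μ(n + α_1)^{ε_1} ⋯ μ(n + α_r)^{ε_r}` -/
noncomputable def P {r : ℕ} (α : Fin r → ℤ) (ε : Fin r → ℕ) (n : ℕ) : ℝ :=
  ∏ i, ((ArithmeticFunction.moebius ((n : ℤ) + α i).toNat : ℤ) : ℝ) ^ ε i

/-- the sum of `P(n)` over `n ≤ N`, `n ≡ a mod q` -/
noncomputable def S {r : ℕ} (α : Fin r → ℤ) (ε : Fin r → ℕ) (q a N : ℕ) : ℝ :=
  ∑ n ∈ (Icc 1 N).filter (fun n => n % q = a), P α ε n

/-- the number of the `n ≤ N`, `n ≡ a mod q`, for which all the `n + α_i` are squarefree (and positive):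
the trivial bound for `|S α ε q a N|` -/
noncomputable def T {r : ℕ} (α : Fin r → ℤ) (q a N : ℕ) : ℝ := S α (fun _ => 2) q a N

/-- the set `𝓔` of the exceptional `N` -/
def Exceptional {r : ℕ} (c : ℝ) (α : Fin r → ℤ) (ε : Fin r → ℕ) (q a : ℕ) : Set ℕ :=
  {N | (1 - c) * T α q a N < |S α ε q a N|}

open Classical in
/-- the sum of `1 / N` over the elements of `E` in `(Y, W]` -/
noncomputable def logSum (E : Set ℕ) (Y W : ℕ) : ℝ := ∑ N ∈ (Ioc Y W).filter (fun N => N ∈ E), (1 : ℝ) / N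

/-- the sum of `P(n) / n` over `Y < n ≤ W`, `n ≡ a mod q` -/
noncomputable def L {r : ℕ} (α : Fin r → ℤ) (ε : Fin r → ℕ) (q a Y W : ℕ) : ℝ :=
  ∑ n ∈ (Ioc Y W).filter (fun n => n % q = a), P α ε n / n

theorem logSum_eq (E : Set ℕ) (Y W : ℕ) : logSum E Y W = Pool.Agent.W5h34.CB.wl E Y W := by
  classical
  unfold logSum Pool.Agent.W5h34.CB.wl
  rw [sum_filter]
  refine sum_congr rfl fun n _ => ?_
  unfold Pool.Agent.Y304.U.ind
  split_ifs <;> simp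

theorem set_eq {r : ℕ} (c : ℝ) (α : Fin r → ℤ) (ε : Fin r → ℕ) (q a : ℕ) : Exceptional c α ε q a =
    {N | (1 - c) * ∑ n ∈ Icc 1 N, (if n % q = a then Pool.Agent.Y958.U.GG α (fun _ => 2) n else 0) <
        |∑ n ∈ Icc 1 N, if n % q = a then Pool.Agent.Y958.U.GG α ε n else 0|} := by
  unfold Exceptional T S
  simp only [sum_filter]
  rfl

theorem result : ∃ c : ℕ → ℝ, (∀ s, 0 < c s) ∧
    ∀ (r : ℕ) (α : Fin r → ℤ) (ε : Fin r → ℕ), Function.Injective α → (∀ i, ε i = 1 ∨ ε i = 2) →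
      ∀ s : ℕ, s = (univ.filter (fun i => ε i = 1)).card → 1 ≤ s → ∀ q a : ℕ, a < q →
        -- (1)
        (∀ δ : ℝ, 0 < δ → ∃ ω Y₀ : ℕ, 1 ≤ Y₀ ∧ ∀ Y W : ℕ, Y₀ ≤ Y → ω * Y ≤ W →
          logSum (Exceptional (c s) α ε q a) Y W ≤ δ * Real.log ((W : ℝ) / Y)) ∧
        -- (2)
        (∃ ω Y₀ : ℕ, 1 ≤ Y₀ ∧ ∀ Y : ℕ, Y₀ ≤ Y → ∃ N ∈ Ioc Y (ω * Y), |S α ε q a N| ≤ (1 - c s) * T α q a N) ∧
        -- (3)
        (∃ ω Y₀ : ℕ, 1 ≤ Y₀ ∧ ∀ Y W : ℕ, Y₀ ≤ Y → ω * Y ≤ W →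
          |L α ε q a Y W| ≤ (1 - c s) * L α (fun _ => 2) q a Y W) := by
  obtain ⟨c, hc, h⟩ := Pool.Agent.W5h34.CB.ap_final
  refine ⟨c, hc, fun r α ε hα hε s hs hs1 q a ha => ?_⟩
  subst hs
  have hex : ∃ i, ε i = 1 := by
    obtain ⟨i, hi⟩ := card_pos.1 (by omega : 0 < (univ.filter (fun i => ε i = 1)).card)
    exact ⟨i, (mem_filter.1 hi).2⟩
  obtain ⟨h1, ω, Y₀, -, hY₀, h2⟩ := h r α ε hα hε hex q a ha
  rw [← set_eq] at h1
  refine ⟨fun δ hδ => ?_, ?_, ω, Y₀, hY₀, fun Y W hY hW => ?_⟩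
  · obtain ⟨ω, Y₀, -, hY₀, h3⟩ := h1 δ hδ
    exact ⟨ω, Y₀, hY₀, fun Y W hY hW => by rw [logSum_eq]; exact h3 Y W hY hW⟩
  · obtain ⟨ω, Y₀, hY₀, h3⟩ := Pool.Agent.W5h34.CB.BZ_gap h1
    refine ⟨ω, Y₀, hY₀, fun Y hY => ?_⟩
    obtain ⟨N, hN, hNE⟩ := h3 Y hY
    exact ⟨N, hN, not_lt.1 hNE⟩
  · have h3 := h2 Y W hY hW
    have e1 : L α ε q a Y W =
        ∑ n ∈ Ioc Y W, (if n % q = a then Pool.Agent.Y958.U.GG α ε n else 0) / (n : ℝ) := by
      unfold L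
      rw [sum_filter]
      refine sum_congr rfl fun n _ => ?_
      split_ifs
      · rfl
      · simp
    have e2 : L α (fun _ => 2) q a Y W =
        ∑ n ∈ Ioc Y W, (if n % q = a then Pool.Agent.Y958.U.GG α (fun _ => 2) n else 0) / (n : ℝ) := by
      unfold L
      rw [sum_filter]
      refine sum_congr rfl fun n _ => ?_
      split_ifs
      · rfl
      · simp
    rw [e1, e2]
    exact h3

end Pool.Agent.Results.MP_c59857_nt.BoundedWindows
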