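import Pool.Agent.W5h23.CP.Mob

/-!
# Chowla's conjecture after small independent random sign changes

Let `X(p)`, `p` prime, be independent random signs, `δ_p = P(X(p) = -1)`, and let
`μ_X(n) = μ(n) ∏_{p ∣ n} X(p)`. We show that `μ_X` satisfies Chowla's conjecture almost surely, with
the ordinary averages, as soon as the windows `(log log N, N]` contain a mass of randomness that
tends to infinity, arbitrarily slowly: `∑_{log log N < p ≤ N} min(δ_p, 1 - δ_p)/p → ∞`. In particular
`δ_p` may be zero outside of a very thin set of primes, so that `μ_X` differs very little from `μ`.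
Any bounded weight (fixed in advance) is allowed.

Method: McDiarmid's inequality gives the concentration of the correlation with respect to the
signs at the primes `p > K log log N`, along scales with ratio tending to `1`; the mean is bounded
by the mean of the multiplicative function `∏_{p ∥ n} |1 - 2 δ_p|`.
-/

set_option autoImplicit false

open MeasureTheory ProbabilityTheory Finset Filter Topology

namespace Pool.Agent.Results.MP_c59857_nt.RandomSigns

/-- `μ_s(n) = μ(n) ∏_{p ∣ n} s(p)` (and `μ_s(0) = 0`) -/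
def muS (s : ℕ → ℤ) (n : ℕ) : ℤ := ArithmeticFunction.moebius n * ∏ p ∈ n.primeFactors, s p

/-- Let `X(p)` (`p` prime) be independent random signs and let `δ_p = P(X(p) = -1)`. If
`∑_{log log N < p ≤ N} min(δ_p, 1 - δ_p)/p → ∞`, then almost surely, for all `r`, all distinct
integers `α_i` and all exponents `ε_i ∈ {1, 2}` with some `ε_i = 1`,
`(1/N) ∑_{n ≤ N} g(n) ∏_i μ_X(n + α_i) ^ ε_i → 0`; here `g` is any fixed function bounded by `1`. -/
theorem result (Ω : Type) [MeasurableSpace Ω] (P : Measure Ω) [IsProbabilityMeasure P]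
    (X : ℕ → Ω → ℤ) (hm : ∀ p, Measurable (X p)) (hs : ∀ p ω, X p ω = 1 ∨ X p ω = -1)
    (hi : iIndepFun (fun (p : Nat.Primes) => X (p : ℕ)) P)
    (hdiv : Tendsto (fun N : ℕ => ∑ p ∈ (Icc 1 N).filter
      (fun p : ℕ => p.Prime ∧ Real.log (Real.log N) < (p : ℝ)),
        min (P.real {ω | X p ω = -1}) (1 - P.real {ω | X p ω = -1}) / p) atTop atTop)
    (g : ℕ → ℝ) (hg : ∀ n, |g n| ≤ 1) :
    ∀ᵐ ω ∂P, ∀ (r : ℕ) (α : Fin r → ℤ), Function.Injective α → ∀ ε : Fin r → ℕ,
      (∀ i, ε i = 1 ∨ ε i = 2) → (∃ i, ε i = 1) →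
      Tendsto (fun N : ℕ => (∑ n ∈ Icc 1 N, g n * ∏ i : Fin r,
        ((muS (fun p => X p ω) (((n : ℤ) + α i).toNat) : ℤ) : ℝ) ^ (ε i)) / (N : ℝ))
          atTop (𝓝 0) := by
  filter_upwards [Pool.Agent.W5h23.CP.chowla ⟨hm, hs, hi⟩ hdiv hg] with ω hω r α hα ε _ hε
  exact hω r α hα ε hε

end Pool.Agent.Results.MP_c59857_nt.RandomSigns
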