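import Pool.Agent.W5h23.CP.MobShort

/-!
# Chowla's conjecture, in all short intervals, after changing the sign of `μ` at a thin set of primes

For a set `E` of primes let `μ_E(n) = μ(n) (-1) ^ #{p ∈ E : p ∣ n}`. We show that there are sets
`E` of primes whose reciprocal sums `∑_{p ∈ E, p ≤ x} 1/p` are below any prescribed slowly growing
bound `ψ(x)` (for instance any iterated logarithm) such that `μ_E` satisfies Chowla's conjecture: for
all `r`, all distinct shifts and all exponents, with the ordinary averages. Moreover, the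
correlations vanish in ALL short intervals `(x, x + l]`, `l ≥ x ^ η`, for every fixed `η > 0`,
uniformly in the shifts up to `(log x)/2`, and uniformly in the weights from a prescribed family of
polynomial size, for instance with the twists by `e(θ n)`, `θ ∈ ℝ` (take `θ = j / N²`).

Method: `E` is a random subset of a greedily chosen set of primes; McDiarmid's inequality gives
the concentration of the correlations in each short interval, with exceptional probabilities that
allow a union bound over all intervals, shifts and weights; the means are bounded with the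
Turán–Kubilius inequality.
-/

set_option autoImplicit false

open Finset Filter Topology

namespace Pool.Agent.Results.MP_c59857_nt.ThinSignChanges

open Classical in
/-- `μ_E(n) = μ(n) (-1) ^ #{p ∈ E : p ∣ n}` (and `μ_E(0) = 0`) -/
noncomputable def muE (E : Set ℕ) (n : ℕ) : ℤ :=
  ArithmeticFunction.moebius n * ∏ p ∈ n.primeFactors, if p ∈ E then -1 else 1

open Classical in
/-- Let `ψ` be a nondecreasing function with `ψ(0) ≥ 0` and `ψ(n) - ψ(⌊(log n)³⌋) → ∞`, and let `𝒢_N` be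
finite sets of weights `ℕ → ℂ` bounded by `1`, `|𝒢_N| ≤ N ^ A`. There is a set `E` of primes with
`∑_{p ∈ E, p ≤ x} 1/p ≤ ψ(x)` for all `x` such that
* `μ_E` satisfies Chowla's conjecture (exactly the statement Q1 with `μ_E` instead of `μ`);
* for all `r`, all exponents with some `ε_i = 1`, all `η, δ > 0` and all `N ≥ N₀`: for all
`x ≤ N`, `N ^ η ≤ l ≤ N`, all distinct integers `α_i` with `|α_i| ≤ (log N)/2` and all `g ∈ 𝒢_N`,
`|∑_{x < n ≤ x + l} g(n) ∏_i μ_E(n + α_i) ^ ε_i| ≤ δ l`. -/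
theorem result (ψ : ℕ → ℝ) (hm : Monotone ψ) (h0 : 0 ≤ ψ 0)
    (hψ : Tendsto (fun n : ℕ => ψ n - ψ ⌊Real.log n ^ 3⌋₊) atTop atTop)
    (A : ℕ) (𝒢 : ℕ → Finset (ℕ → ℂ)) (hcard : ∀ᶠ N : ℕ in atTop, (𝒢 N).card ≤ N ^ A)
    (hg : ∀ N, ∀ g ∈ 𝒢 N, ∀ n, ‖g n‖ ≤ 1) :
    ∃ E : Set ℕ, (∀ p ∈ E, p.Prime) ∧
      (∀ x : ℕ, ∑ p ∈ (Icc 1 x).filter (fun p => p ∈ E), (1 : ℝ) / p ≤ ψ x) ∧
      (∀ (r : ℕ) (α : Fin r → ℤ), Function.Injective α → ∀ ε : Fin r → ℕ,
        (∀ i, ε i = 1 ∨ ε i = 2) → (∃ i, ε i = 1) →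
        Tendsto (fun N : ℕ => (∑ n ∈ Icc 1 N, ∏ i : Fin r,
          ((muE E (((n : ℤ) + α i).toNat) : ℤ) : ℝ) ^ (ε i)) / (N : ℝ)) atTop (𝓝 0)) ∧
      (∀ (r : ℕ) (ε : Fin r → ℕ), (∃ i, ε i = 1) → ∀ η : ℝ, 0 < η → ∀ δ : ℝ, 0 < δ →
        ∀ᶠ N : ℕ in atTop, ∀ x l : ℕ, x ≤ N → (N : ℝ) ^ η ≤ l → l ≤ N →
        ∀ α : Fin r → ℤ, Function.Injective α → (∀ i, |(α i : ℝ)| ≤ Real.log N / 2) →
        ∀ g ∈ 𝒢 N, ‖∑ n ∈ Ioc x (x + l), g n * ∏ i : Fin r,
          ((muE E (((n : ℤ) + α i).toNat) : ℤ) : ℂ) ^ (ε i)‖ ≤ δ * l) := by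
  have hcard' : ∀ᶠ N : ℕ in atTop, (insert (fun _ => (1 : ℂ)) (𝒢 N)).card ≤ N ^ (A + 1) := by
    filter_upwards [hcard, eventually_ge_atTop 2] with N hN hN2
    refine (Finset.card_insert_le _ _).trans ?_
    have h1 : 1 ≤ N ^ A := Nat.one_le_pow _ _ (by omega)
    calc (𝒢 N).card + 1 ≤ N ^ A + N ^ A := by omega
      _ = 2 * N ^ A := by ring
      _ ≤ N * N ^ A := Nat.mul_le_mul_right _ hN2
      _ = N ^ (A + 1) := by ring
  obtain ⟨s, hs, hsp, hsum, hmain⟩ := Pool.Agent.W5h23.CP.thin_sets ψ hm h0 hψ (A + 1)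
    (fun N => insert (fun _ => (1 : ℂ)) (𝒢 N)) hcard' (fun N g hg' n => by
      rcases Finset.mem_insert.mp hg' with h | h
      · rw [h]; simp
      · exact hg N g h n)
  set E : Set ℕ := {p | s p = -1} with hE
  have hmu : ∀ n, muE E n = Pool.Agent.W5h23.CP.muX s n := by
    intro n
    unfold muE Pool.Agent.W5h23.CP.muX
    congr 1
    refine Finset.prod_congr rfl fun p _ => ?_
    by_cases hp : p ∈ E
    · rw [if_pos hp]; exact hp.symm
    · rw [if_neg hp]
      rcases hs p with h | h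
      · exact h.symm
      · exact absurd h hp
  refine ⟨E, fun p hp => hsp p hp, ?_, ?_, ?_⟩
  · intro x
    refine le_trans (le_of_eq ?_) (hsum x)
    refine Finset.sum_congr ?_ fun _ _ => rfl
    ext p
    simp only [Finset.mem_filter]
    exact Iff.rfl
  · intro r α hα ε _ hε
    rw [Metric.tendsto_atTop]
    intro δ hδ
    have h1 := hmain r ε hε (1 / 2) (by norm_num) (δ / 2) (by positivity)
    have hlogt : Tendsto (fun N : ℕ => Real.log (N : ℝ)) atTop atTop :=
      Real.tendsto_log_atTop.comp tendsto_natCast_atTop_atTop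
    have h2 : ∀ᶠ N : ℕ in atTop, ∀ i, |(α i : ℝ)| ≤ Real.log N / 2 := by
      rw [Filter.eventually_all]
      intro i
      filter_upwards [hlogt.eventually_ge_atTop (2 * |(α i : ℝ)|)] with N hN
      linarith
    obtain ⟨N0, hN0⟩ := eventually_atTop.mp (h1.and (h2.and (eventually_ge_atTop 1)))
    refine ⟨N0, fun N hN => ?_⟩
    obtain ⟨h3, h4, h5⟩ := hN0 N hN
    have hN1 : (1 : ℝ) ≤ N := by exact_mod_cast h5
    have hpow : (N : ℝ) ^ (1 / 2 : ℝ) ≤ N := by
      calc (N : ℝ) ^ (1 / 2 : ℝ) ≤ (N : ℝ) ^ (1 : ℝ) :=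
            Real.rpow_le_rpow_of_exponent_le hN1 (by norm_num)
        _ = N := Real.rpow_one _
    have h6 := h3 0 N (by omega) hpow le_rfl α hα h4 (fun _ => (1 : ℂ))
      (Finset.mem_insert_self _ _)
    rw [Real.dist_eq, sub_zero]
    have e1 : ((∑ n ∈ Icc 1 N, ∏ i : Fin r,
          ((muE E (((n : ℤ) + α i).toNat) : ℤ) : ℝ) ^ (ε i) : ℝ) : ℂ) =
        ∑ n ∈ Ioc 0 (0 + N), (fun _ => (1 : ℂ)) n * ∏ i : Fin r,
        ((Pool.Agent.W5h23.CP.muX s (((n : ℤ) + α i).toNat) : ℤ) : ℂ) ^ (ε i) := by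
      push_cast
      have e2 : Icc 1 N = Ioc 0 (0 + N) := by
        ext n
        simp only [Finset.mem_Icc, Finset.mem_Ioc]
        omega
      rw [e2]
      refine Finset.sum_congr rfl fun n _ => ?_
      rw [one_mul]
      refine Finset.prod_congr rfl fun i _ => ?_
      rw [hmu]
    rw [← e1, Complex.norm_real, Real.norm_eq_abs] at h6
    rw [abs_div, abs_of_pos (show (0 : ℝ) < N by linarith), div_lt_iff₀ (by linarith)]
    have h7 : δ / 2 * (N : ℝ) < δ * N := by
      refine mul_lt_mul_of_pos_right (by linarith) (by linarith)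
    linarith
  · intro r ε hε η hη δ hδ
    filter_upwards [hmain r ε hε η hη δ hδ] with N hN x l hx hηl hlN α hα hαb g hgg
    simp only [hmu]
    exact hN x l hx hηl hlN α hα hαb g (Finset.mem_insert_of_mem hgg)

end Pool.Agent.Results.MP_c59857_nt.ThinSignChanges
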